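import Pool.Agent.Helper26K9.QA.All

/-!
# Quartic twists with mixed exponents: the central values
-/

set_option autoImplicit false
set_option linter.unusedSectionVars false
set_option linter.unusedVariables false

open Finset IsDedekindDomain

namespace Pool.Agent.Helper26K9.MX

open H667R3 Pool.Agent.TH936.CW Pool.Agent.Y690.NV Pool.Agent.Y690.AW Pool.Agent.W192.HK
open Pool.Agent.TH936.CM (IsLat out_sub)
open Pool.Agent.Helper26K9.XO Pool.Agent.Helper26K9.QT Pool.Agent.Helper26K9.QA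
open Complex (I)

section abs

variable {R : Subring ℂ} (hR : ∀ z : ℂ, z ∈ R ↔ ∃ x y : ℤ, z = x + y * I) {x x' : R → R → ℂ}

/-- `XC x p` depends only on `x p` -/
lemma xc_congr {p : R} (h : XC x p) (he : ∀ α, x' p α = x p α) : XC x' p where
  od := h.od
  max := h.max
  mul := fun α β => by rw [he, he, he, h.mul]
  one := by rw [he, h.one]
  per := fun α β hαβ => by rw [he, he, h.per α β hαβ]
  zero := fun α => by rw [he, h.zero]
  sq := fun α => by rw [he, h.sq]

open Classical in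
/-- the mixed family -/
noncomputable def xm (x : R → R → ℂ) (T : Finset R) (p α : R) : ℂ :=
  if p ∈ T then xb x p α else x p α

lemma xm_xc {T : Finset R} {p : R} (h : XC x p) : XC (xm x T) p := by
  classical
  by_cases hp : p ∈ T
  · exact xc_congr h.conj fun α => by unfold xm; rw [if_pos hp]
  · exact xc_congr h fun α => by unfold xm; rw [if_neg hp]

lemma cx_xm (T S : Finset R) [DecidableEq R] (hTS : T ⊆ S) (α : R) :
    cx (xm x T) S α = cx x (S \ T) α * cx (xb x) T α := by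
  classical
  have h1 : cx (xm x T) S α = (∏ p ∈ S \ T, xm x T p α) * ∏ p ∈ T, xm x T p α := by
    unfold cx
    rw [Finset.prod_sdiff hTS]
  rw [h1]
  unfold cx
  congr 1
  · refine Finset.prod_congr rfl fun p hp => ?_
    unfold xm
    rw [if_neg (Finset.mem_sdiff.1 hp).2]
  · refine Finset.prod_congr rfl fun p hp => ?_
    unfold xm
    rw [if_pos hp]

include hR in
open Classical in
/-- the character itself -/
theorem oneE (hgg : S_GG) (iso : S_ISO) (cmp : S_CMP)
    (hbasic : H_BASIC) (hfp : H_FP) (hcnt : H_CNT) (hdec : H_DEC) (hafe : H_AFE)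
    {S : Finset R} (hA : Adm0 S) (hS : ∀ p ∈ S, Prime p ∧ XC x p)
    (hu2 : cx x S (ii hR) ^ 2 = -1) {k a b : ℕ} (hk : 1 ≤ k)
    (hab : a + b = 2 * k - 1) : Gd hR (cx x S) k a b := by
  obtain ⟨e, he⟩ : ∃ e, ((a : ℤ) - b).natAbs = 2 * e + 1 :=
    ⟨(((a : ℤ) - b).natAbs - 1) / 2, by omega⟩
  have hX : ∀ p ∈ S, XC x p := fun p hp => (hS p hp).2
  have hd : Dst S := dst_of hR hA.1
  have hS' : ∀ p ∈ S, Prime p ∧ XC (xb x) p := fun p hp => ⟨(hS p hp).1, (hX p hp).conj⟩
  have hu2' : cx (xb x) S (ii hR) ^ 2 = -1 := by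
    rw [cx_xb, ← map_pow, hu2, map_neg, map_one]
  have n1 : NVan e (gj hR (cx x S) (2 * e + 1) 0) := by
    rw [gj_tx]
    exact nvE hR hgg iso cmp hbasic hfp hcnt hdec hafe e hS hd hA.2.1 hA.2.2 hu2
  have n3 : NVan e (gj hR (cx (xb x) S) (2 * e + 1) 0) := by
    rw [gj_tx]
    exact nvE hR hgg iso cmp hbasic hfp hcnt hdec hafe e hS' hd hA.2.1 hA.2.2 hu2'
  exact pairE hR hbasic (fun r => (cx_xb S r).symm) n1 n3 hk hab he

end abs

section sym

open Pool.Agent.Y690.PP Pool.Agent.Y690.PP.Fn Pool.Agent.Helper26K9.DN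

open Classical in
/-- the mixed character: `(α / q)₄` for the `q` in `A` which are not in `B`, and its conjugate for the
`q` in `B` -/
noncomputable def mx (A B : Finset Pr) (α : G) : ℂ :=
  (∏ q ∈ A \ B, symb q.1 α) * ∏ q ∈ B, (starRingEnd ℂ) (symb q.1 α)

open Classical in
/-- **the nonvanishing for the good sets** -/
theorem lvM {A B : Finset Pr} (hX : XX gs (fun _ => (1 : ℝ)) A = 2)
    (hch : Pool.Agent.Helper26K9.DN.ch A = -1) (hBA : B ⊆ A) {k a b : ℕ} (hk : 1 ≤ k)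
    (hab : a + b = 2 * k - 1) :
    ∃ L : ℂ → ℂ, Differentiable ℂ L ∧ (∀ s : ℂ, ((a : ℝ) + b) / 2 + 1 < s.re →
      HasProd (fun p : Pr => (1 - mx A B p.1 * (p.1 : ℂ) ^ a *
        (starRingEnd ℂ) (p.1 : ℂ) ^ b * ((p.1.norm : ℤ) : ℂ) ^ (-s))⁻¹) (L s)) ∧ L k ≠ 0 := by
  have hbasic := Pool.Agent.W287.HK.h_basic
  have hcls := Pool.Agent.W571.HK.h_cls hbasic
  have hfp := Pool.Agent.W53.HK.h_fp hbasic hcls
  have hfpr := Pool.Agent.W366.HK.h_fpr hbasic hcls
  have hlat := Pool.Agent.W585.HK.h_lat hbasic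
  have hker := Pool.Agent.W692.HK.h_ker hbasic hcls hfpr
  have hcnt := Pool.Agent.W584.HK.h_cnt hbasic hcls hfpr hlat hker
  have hdec := Pool.Agent.W856.HK.h_dec hbasic
  have hgauss := Pool.Agent.W636.HK.h_gauss hbasic hfp
  have hpois := Pool.Agent.W348.HK.h_pois hbasic
  have htheta := Pool.Agent.TH936.HK.h_theta hbasic hfp hdec hgauss hpois hcnt
  have hafe := Pool.Agent.TH936.HK.h_afe hbasic hfp hcnt hgauss htheta
  set S := A.map (em hRR) with hSd
  set T := B.map (em hRR) with hTd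
  have hTS : T ⊆ S := Finset.map_subset_map.2 hBA
  have hadm : Adm0 S := adm0_of_XX hRR hbasic hX hch
  have hXC : ∀ p ∈ S, XC x4 p := fun p hp =>
    q4 RR hRR hbasic p (hadm.1 p hp).1 (hadm.1 p hp).2
  have hS : ∀ p ∈ S, Prime p ∧ XC (xm x4 T) p := fun p hp => ⟨(hadm.1 p hp).1, xm_xc (hXC p hp)⟩
  have hXC' : ∀ p ∈ S, XC (xm x4 T) p := fun p hp => (hS p hp).2
  have hu2 : cx (xm x4 T) S (Pool.Agent.Y690.NV.ii hRR) ^ 2 = -1 := by
    have h1 : Pool.Agent.Y690.NV.ii hRR = phi hRR Pool.Agent.Helper26K9.DN.ii := by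
      refine Subtype.ext ?_
      rw [Pool.Agent.Y690.NV.ii_coe, phi_coe]
      unfold Pool.Agent.Helper26K9.DN.ii
      push_cast
      ring
    have h5 : Pool.Agent.Y690.AW.ch (A.map (em hRR)) (phi hRR Pool.Agent.Helper26K9.DN.ii) =
        ∏ q ∈ A, qs q.1 Pool.Agent.Helper26K9.DN.ii := by
      unfold Pool.Agent.Y690.AW.ch
      rw [Finset.prod_map]
      exact Finset.prod_congr rfl fun q _ => phi_qs hRR q.1 _
    rw [cx_sq hXC', h1, hSd, h5]
    have h2 : ∀ q : Pr, qs q.1 Pool.Agent.Helper26K9.DN.ii = gi q.1 := fun q => qs_ii q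
    have h3 : ((∏ q ∈ A, qs q.1 Pool.Agent.Helper26K9.DN.ii : ℤ) : ℝ) = -1 := by
      rw [← hch]
      unfold Pool.Agent.Helper26K9.DN.ch gz
      push_cast
      exact Finset.prod_congr rfl fun q _ => by rw [h2]
    have h4 : (∏ q ∈ A, qs q.1 Pool.Agent.Helper26K9.DN.ii : ℤ) = -1 := by exact_mod_cast h3
    rw [h4]
    norm_num
  have hg := oneE hRR gg_all iso cmp hbasic hfp hcnt hdec hafe hadm hS hu2 hk hab
  obtain ⟨L, l1, l2, l3⟩ := Gd.prod hRR hbasic (cx_one hXC') (fun r s => cx_mul hXC' r s) hg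
  refine ⟨L, l1, fun s hs => ?_, l3⟩
  have hab' : (a : ℝ) + b = 2 * k - 1 := by
    have h1 : a + b + 1 = 2 * k := by omega
    have h2 : ((a + b + 1 : ℕ) : ℝ) = ((2 * k : ℕ) : ℝ) := by rw [h1]
    push_cast at h2
    linarith
  refine prod_pr hRR hbasic (fun J hJ => gj_zero hRR _ a b hJ) (fun p => ?_)
    (l2 s (by rw [hab'] at hs; linarith))
  have hpri : phi hRR p.1 - 1 ∈ sp (ff hRR) := by
    rw [Pool.Agent.Y690.AW.pri_iff hRR, phi_pri]
    exact p.2.2
  have hmx : cx (xm x4 T) S (phi hRR p.1) = mx A B p.1 := by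
    rw [cx_xm T S hTS, cx_xb]
    have e1 : S \ T = (A \ B).map (em hRR) := by
      rw [hSd, hTd, Finset.map_sdiff]
    rw [e1, hTd]
    unfold mx cx
    rw [Finset.prod_map, Finset.prod_map, map_prod]
    congr 1
    · exact Finset.prod_congr rfl fun q _ => x4_phi hRR hbasic q p.1
    · exact Finset.prod_congr rfl fun q _ => congrArg _ (x4_phi hRR hbasic q p.1)
  rw [gj_gen hRR _ a b hpri, hmx, phi_cc]

end sym

end Pool.Agent.Helper26K9.MX
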