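import Pool.Agent.Helper26K9.QT.R1
import Pool.Agent.Helper26K9.QT.R2

/-!
# Quartic twists with mixed exponents: the points of `y² = x³ - c x`, `c = ± PA A * PA B ^ 2`
-/

set_option autoImplicit false

open Finset

namespace Pool.Agent.Helper26K9.MX

open Pool.Agent.Y690.PP Pool.Agent.Y690.PP.Fn Pool.Agent.Helper26K9.DN
open Pool.Agent.Y547.PP Pool.Agent.Helper26K9.QT Pool.Agent.Helper26K9.QT.R1L

/-- first half of the local conditions -/
theorem halfA {d D' M f b Z : G} (hE : Z ^ 2 = d * f ^ 4 - D' * M ^ 2 * b ^ 4)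
    (hcop : IsCoprime f b) (p : Pr) (hsq : ¬ p.1 * p.1 ∣ d * D') (hM : ¬ p.1 * p.1 ∣ M)
    (hpd : p.1 ∣ d) : qs p.1 D' = 1 := by
  have hP := p.2.1
  have hm := qs_mul p.2.1 p.2.2
  have hnD : ¬ p.1 ∣ D' := fun h => hsq (mul_dvd_mul hpd h)
  obtain ⟨d1, hd1⟩ := hpd
  have hnd1 : ¬ p.1 ∣ d1 := by
    intro h
    apply hsq
    rw [hd1]
    exact (mul_dvd_mul_left _ h).mul_right _
  by_cases hpM : p.1 ∣ M
  · obtain ⟨M1, hM1⟩ := hpM
    have hnM1 : ¬ p.1 ∣ M1 := by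
      intro h
      apply hM
      rw [hM1]
      exact mul_dvd_mul_left _ h
    have hpZ : p.1 ∣ Z := by
      refine hP.dvd_of_dvd_pow (n := 2) ?_
      rw [hE, hd1, hM1]
      exact ⟨d1 * f ^ 4 - p.1 * (D' * M1 ^ 2 * b ^ 4), by ring⟩
    obtain ⟨Z1, hZ1⟩ := hpZ
    have h1 : p.1 * Z1 ^ 2 = d1 * f ^ 4 - p.1 * (D' * M1 ^ 2 * b ^ 4) := by
      apply mul_left_cancel₀ hP.ne_zero
      rw [hZ1, hd1, hM1] at hE
      linear_combination hE
    have hpf : p.1 ∣ f := by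
      have h2 : p.1 ∣ d1 * f ^ 4 := ⟨Z1 ^ 2 + D' * M1 ^ 2 * b ^ 4, by linear_combination -h1⟩
      exact hP.dvd_of_dvd_pow ((hP.dvd_or_dvd h2).resolve_left hnd1)
    have hnb : ¬ p.1 ∣ b := fun h => hP.not_isUnit (hcop.isUnit_of_dvd' hpf h)
    obtain ⟨f1, hf1⟩ := hpf
    have h2 : Z1 ^ 2 = p.1 ^ 3 * (d1 * f1 ^ 4) - D' * M1 ^ 2 * b ^ 4 := by
      apply mul_left_cancel₀ hP.ne_zero
      rw [hf1] at h1
      linear_combination h1
    have h3 : p.1 ∣ Z1 ^ 2 - (-(D' * (M1 * b ^ 2) ^ 2)) :=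
      ⟨p.1 ^ 2 * (d1 * f1 ^ 4), by rw [h2]; ring⟩
    have h4 : ¬ p.1 ∣ M1 * b ^ 2 := by
      intro h
      rcases hP.dvd_or_dvd h with h5 | h5
      · exact hnM1 h5
      · exact hnb (hP.dvd_of_dvd_pow h5)
    have h5 := qs_per h3
    rw [qs_neg', hm, qs_sq hP h4, mul_one] at h5
    have h6 : ¬ p.1 ∣ Z1 := by
      intro h
      have h7 : qs p.1 (Z1 ^ 2) = 0 := qs_zero.2 (dvd_pow h (by norm_num))
      rw [h7] at h5
      exact hnD (qs_zero.1 h5.symm)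
    rw [qs_sq hP h6] at h5
    exact h5.symm
  · by_cases hb : p.1 ∣ b
    · exfalso
      obtain ⟨b1, hb1⟩ := hb
      have hnf : ¬ p.1 ∣ f := fun h => hP.not_isUnit (hcop.isUnit_of_dvd' h ⟨b1, hb1⟩)
      have hpZ : p.1 ∣ Z := by
        refine hP.dvd_of_dvd_pow (n := 2) ?_
        rw [hE, hd1, hb1]
        exact ⟨d1 * f ^ 4 - p.1 ^ 3 * (D' * M ^ 2 * b1 ^ 4), by ring⟩
      obtain ⟨Z1, hZ1⟩ := hpZ
      have h1 : p.1 ∣ d1 * f ^ 4 := by
        refine ⟨Z1 ^ 2 + p.1 ^ 2 * (D' * M ^ 2 * b1 ^ 4), ?_⟩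
        apply mul_left_cancel₀ hP.ne_zero
        rw [hZ1, hd1, hb1] at hE
        linear_combination -hE
      rcases hP.dvd_or_dvd h1 with h2 | h2
      · exact hnd1 h2
      · exact hnf (hP.dvd_of_dvd_pow h2)
    · have h3 : p.1 ∣ Z ^ 2 - (-(D' * (M * b ^ 2) ^ 2)) :=
        ⟨d1 * f ^ 4, by rw [hE, hd1]; ring⟩
      have h4 : ¬ p.1 ∣ M * b ^ 2 := by
        intro h
        rcases hP.dvd_or_dvd h with h5 | h5
        · exact hpM h5
        · exact hb (hP.dvd_of_dvd_pow h5)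
      have h5 := qs_per h3
      rw [qs_neg', hm, qs_sq hP h4, mul_one] at h5
      have h6 : ¬ p.1 ∣ Z := by
        intro h
        have h7 : qs p.1 (Z ^ 2) = 0 := qs_zero.2 (dvd_pow h (by norm_num))
        rw [h7] at h5
        exact hnD (qs_zero.1 h5.symm)
      rw [qs_sq hP h6] at h5
      exact h5.symm

/-- second half of the local conditions -/
theorem halfB {d D' M f b Z : G} (hE : Z ^ 2 = d * f ^ 4 - D' * M ^ 2 * b ^ 4)
    (hcop : IsCoprime f b) (p : Pr) (hsq : ¬ p.1 * p.1 ∣ d * D') (hM : ¬ p.1 * p.1 ∣ M)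
    (hpD : p.1 ∣ D') : qs p.1 d = 1 := by
  have hP := p.2.1
  have hm := qs_mul p.2.1 p.2.2
  have hnd : ¬ p.1 ∣ d := fun h => hsq (mul_dvd_mul h hpD)
  obtain ⟨D'', hD''⟩ := hpD
  have hnD'' : ¬ p.1 ∣ D'' := by
    intro h
    apply hsq
    rw [hD'']
    exact (mul_dvd_mul_left _ h).mul_left _
  by_cases hf : p.1 ∣ f
  · exfalso
    obtain ⟨f1, hf1⟩ := hf
    have hnb : ¬ p.1 ∣ b := fun h => hP.not_isUnit (hcop.isUnit_of_dvd' ⟨f1, hf1⟩ h)
    have h1 : p.1 ∣ Z := by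
      refine hP.dvd_of_dvd_pow (n := 2) ?_
      rw [hE, hf1, hD'']
      exact ⟨d * p.1 ^ 3 * f1 ^ 4 - D'' * M ^ 2 * b ^ 4, by ring⟩
    obtain ⟨Z1, hZ1⟩ := h1
    by_cases hpM : p.1 ∣ M
    · obtain ⟨M1, hM1⟩ := hpM
      have hnM1 : ¬ p.1 ∣ M1 := by
        intro h
        apply hM
        rw [hM1]
        exact mul_dvd_mul_left _ h
      have h2 : Z1 ^ 2 = p.1 ^ 2 * (d * f1 ^ 4) - p.1 * (D'' * M1 ^ 2 * b ^ 4) := by
        apply mul_left_cancel₀ (pow_ne_zero 2 hP.ne_zero)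
        rw [hZ1, hf1, hD'', hM1] at hE
        linear_combination hE
      have h3 : p.1 ∣ Z1 := by
        refine hP.dvd_of_dvd_pow (n := 2) ?_
        rw [h2]
        exact ⟨p.1 * (d * f1 ^ 4) - D'' * M1 ^ 2 * b ^ 4, by ring⟩
      obtain ⟨Z2, hZ2⟩ := h3
      have h4 : p.1 ∣ D'' * M1 ^ 2 * b ^ 4 := by
        refine ⟨d * f1 ^ 4 - Z2 ^ 2, ?_⟩
        apply mul_left_cancel₀ hP.ne_zero
        rw [hZ2] at h2
        linear_combination h2
      rcases hP.dvd_or_dvd h4 with h5 | h5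
      · rcases hP.dvd_or_dvd h5 with h6 | h6
        · exact hnD'' h6
        · exact hnM1 (hP.dvd_of_dvd_pow h6)
      · exact hnb (hP.dvd_of_dvd_pow h5)
    · have h4 : p.1 ∣ D'' * M ^ 2 * b ^ 4 := by
        refine ⟨p.1 ^ 2 * (d * f1 ^ 4) - Z1 ^ 2, ?_⟩
        apply mul_left_cancel₀ hP.ne_zero
        rw [hZ1, hf1, hD''] at hE
        linear_combination hE
      rcases hP.dvd_or_dvd h4 with h5 | h5
      · rcases hP.dvd_or_dvd h5 with h6 | h6
        · exact hnD'' h6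
        · exact hpM (hP.dvd_of_dvd_pow h6)
      · exact hnb (hP.dvd_of_dvd_pow h5)
  · have h3 : p.1 ∣ d * (f ^ 2) ^ 2 - Z ^ 2 := by
      rw [hE, hD'']
      exact ⟨D'' * M ^ 2 * b ^ 4, by ring⟩
    have h5 := qs_per h3
    have h4 : ¬ p.1 ∣ f ^ 2 := fun h => hf (hP.dvd_of_dvd_pow h)
    have h6 : ¬ p.1 ∣ Z := by
      intro h
      have h7 : p.1 ∣ d * (f ^ 2) ^ 2 := by
        have := dvd_add h3 (dvd_pow h (two_ne_zero))
        rwa [sub_add_cancel] at this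
      rcases hP.dvd_or_dvd h7 with h8 | h8
      · exact hnd h8
      · exact h4 (hP.dvd_of_dvd_pow h8)
    rwa [hm, qs_sq hP h4, qs_sq hP h6, mul_one] at h5

/-- both local conditions from the equation of the torsor -/
theorem locM {d D' M f b Y : G} (hd : Squarefree d)
    (hY : Y ^ 2 = d * (d ^ 2 * f ^ 4 - d * D' * M ^ 2 * b ^ 4)) (hcop : IsCoprime f b)
    (p : Pr) (hsq : ¬ p.1 * p.1 ∣ d * D') (hM : ¬ p.1 * p.1 ∣ M) :
    (p.1 ∣ d → qs p.1 D' = 1) ∧ (p.1 ∣ D' → qs p.1 d = 1) := by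
  have hd0 : d ≠ 0 := hd.ne_zero
  have h1 : d ∣ Y := by
    rw [← hd.dvd_pow_iff_dvd (n := 2) (by norm_num), hY]
    exact dvd_mul_right _ _
  obtain ⟨Y1, rfl⟩ := h1
  have h2 : Y1 ^ 2 = d * f ^ 4 - D' * M ^ 2 * b ^ 4 := by
    apply mul_left_cancel₀ (pow_ne_zero 2 hd0)
    linear_combination hY
  exact ⟨halfA h2 hcop p hsq hM, halfB h2 hcop p hsq hM⟩

/-- the class of `x` and its local conditions -/
theorem mainM {F : Type} [Field F] [Algebra G F] [IsFractionRing G F] (s : G) (hs : s ^ 2 = 1)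
    (A B : Finset Pr) (hBA : B ⊆ A) (x y : F) (hx : x ≠ 0)
    (hxy : y ^ 2 = x ^ 3 - algebraMap G F (s * PA A * PA B ^ 2) * x) [DecidableEq Pr] :
    ∃ (u : G) (V : Finset Pr) (w : F), (u = 1 ∨ u = ii) ∧ V ⊆ A ∧
      x = algebraMap G F (u * PA V) * w ^ 2 ∧
      (∀ p ∈ V, qs p.1 (u * PA (A \ V)) = 1) ∧
      (∀ p ∈ A, p ∉ V → qs p.1 (u * PA V) = 1) := by
  have hm : ∀ p : Pr, ∀ v w : G, qs p.1 (v * w) = qs p.1 v * qs p.1 w := fun p => qs_mul p.2.1 p.2.2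
  have hsu : IsUnit s := IsUnit.of_mul_eq_one s (by rw [← sq]; exact hs)
  obtain ⟨d, f, b, Y0, hd, hdD, hcop, hf0, hb0, hX, hY0⟩ := decomp (F := F) hx hxy
  have hdD' : ∀ ρ : G, Prime ρ → ρ ∣ d → ρ ∣ PA A := by
    intro ρ hρ h
    have h1 := hdD ρ hρ h
    rcases hρ.dvd_or_dvd h1 with h2 | h2
    · exact dvd_of_unit_mul hsu h2
    · exact (hρ.dvd_of_dvd_pow h2).trans (by rw [← PA_sdiff hBA]; exact dvd_mul_right _ _)
  obtain ⟨S, v, hSA, hv, hdS⟩ := struct hd fun ρ hρ h => (hdD' ρ hρ h).mul_left la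
  have hdS : d = v * PA S := by
    rcases hdS with h | h
    · exact h
    · exfalso
      have h1 : la ∣ d := by
        rw [h]
        exact ((dvd_refl la).mul_left v).mul_right _
      exact la_not_dvd_prm (Pool.Agent.Y547.PP.prm_PA A) (hdD' la Pool.Agent.Y547.PP.la_prime h1)
  obtain ⟨v', hvv'⟩ := hv.exists_right_inv
  have hv' : IsUnit v' := IsUnit.of_mul_eq_one v (by rw [mul_comm]; exact hvv')
  have hPA := PA_sdiff hSA
  have hDD : d * (v' * s * PA (A \ S)) = s * PA A := by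
    rw [hdS, ← hPA]
    linear_combination s * PA S * PA (A \ S) * hvv'
  rw [← hDD] at hY0
  have hsq : ∀ p : Pr, ¬ p.1 * p.1 ∣ d * (v' * s * PA (A \ S)) := by
    intro p h
    rw [hDD] at h
    exact sqf_D A p ((dvd_of_unit_mul hsu h).mul_left la)
  have hL := fun p : Pr => locM hd hY0 hcop p (hsq p) (fun h => sqf_D B p (h.mul_left la))
  obtain ⟨u, e, hu, he, hve⟩ := unit_class hv
  have hsym : ∀ p : Pr, qs p.1 v' = qs p.1 u := by
    intro p
    have h1 : v' = v * v' ^ 2 := by linear_combination -v' * hvv'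
    rw [h1, hve, hm, hm, qs_sq p.2.1 (not_dvd_unit p he), qs_sq p.2.1 (not_dvd_unit p hv'),
      mul_one, mul_one]
  refine ⟨u, S, algebraMap G F e * (algebraMap G F f / algebraMap G F b), hu, hSA, ?_, ?_, ?_⟩
  · rw [hX, hdS, hve]
    simp only [map_mul, map_pow]
    ring
  · intro p hp
    have h1 := (hL p).1 (by rw [hdS]; exact (dvd_PA hp).mul_left _)
    rw [hm, hm, hsym, qs_unit p.2.1 hs, mul_one] at h1
    rw [hm]
    exact h1
  · intro p hpA hpS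
    have h1 := (hL p).2 ((dvd_PA (Finset.mem_sdiff.2 ⟨hpA, hpS⟩)).mul_left _)
    rw [hdS, hve, hm, hm, qs_sq p.2.1 (not_dvd_unit p he), mul_one] at h1
    rw [hm]
    exact h1

/-- the descent by `1 + i` -/
theorem r1M (A : Finset Pr) (hX : XX gs (fun _ => (1 : ℝ)) A = 2) (hch : ch A = -1)
    (B : Finset Pr) (hBA : B ⊆ A) (c : G) (hc : c = PA A * PA B ^ 2 ∨ c = -(PA A * PA B ^ 2))
    (x y : FractionRing G) (hx : x ≠ 0)
    (hxy : y ^ 2 = x ^ 3 - algebraMap G (FractionRing G) c * x) :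
    (∃ w : FractionRing G, x = w ^ 2) ∨
      ∃ w : FractionRing G, -algebraMap G (FractionRing G) c = x * w ^ 2 := by
  classical
  obtain ⟨s, e, hs, he, hDs⟩ : ∃ s e : G, s ^ 2 = 1 ∧ -s = e ^ 2 ∧ c = s * PA A * PA B ^ 2 := by
    rcases hc with rfl | rfl
    · exact ⟨1, ii, by ring, by rw [sq, ii2], by ring⟩
    · exact ⟨-1, 1, by ring, by ring, by ring⟩
  rw [hDs] at hxy ⊢
  obtain ⟨u, V, w, hu, hVA, hw, h1, h2⟩ := mainM s hs A B hBA x y hx hxy
  rcases hu with rfl | rfl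
  · have h4 : V = ∅ ∨ V = A := by
      refine eq_of_two hX hVA (fun p hp => ?_) (fun p hp hp' => ?_)
      · have hB2 := h1 p hp
        rw [one_mul, Pool.Agent.Helper26K9.DN.qs_PA] at hB2
        rw [cast_gs]
        exact_mod_cast hB2
      · have h3 := h2 p hp hp'
        rw [one_mul, Pool.Agent.Helper26K9.DN.qs_PA] at h3
        rw [cast_gs]
        exact_mod_cast h3
    rcases h4 with h3 | h3
    · left
      refine ⟨w, ?_⟩
      rw [hw, h3]
      have hPe : PA ∅ = 1 := Finset.prod_empty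
      rw [hPe, mul_one, map_one, one_mul]
    · right
      have hw0 : w ≠ 0 := by
        rintro rfl
        apply hx
        rw [hw]
        ring
      rw [h3, one_mul] at hw
      have hse : -algebraMap G (FractionRing G) s = (algebraMap G (FractionRing G) e) ^ 2 := by
        rw [← map_neg, he, map_pow]
      refine ⟨algebraMap G (FractionRing G) e * algebraMap G (FractionRing G) (PA B) / w, ?_⟩
      have hw2 : w ^ 2 ≠ 0 := pow_ne_zero 2 hw0
      have key : ∀ a b : FractionRing G, a * w ^ 2 * (b ^ 2 / w ^ 2) = a * b ^ 2 := by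
        intro a b
        field_simp
      rw [hw, div_pow, key]
      simp only [map_mul, map_pow]
      rw [mul_pow, ← hse]
      ring
  · exfalso
    have e1 : ∀ p ∈ V, gi p.1 = ∏ q ∈ A \ V, qs q.1 p.1 := by
      intro p hp
      have hB2 := h1 p hp
      rw [qs_iPA] at hB2
      have := gi_sq p
      calc gi p.1 = gi p.1 * (gi p.1 * ∏ q ∈ A \ V, qs q.1 p.1) := by rw [hB2, mul_one]
        _ = (gi p.1 * gi p.1) * ∏ q ∈ A \ V, qs q.1 p.1 := by ring
        _ = _ := by rw [this, one_mul]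
    have e2 : ∀ p ∈ A \ V, gi p.1 = ∏ q ∈ V, qs q.1 p.1 := by
      intro p hp
      rw [mem_sdiff] at hp
      have h3 := h2 p hp.1 hp.2
      rw [qs_iPA] at h3
      have := gi_sq p
      calc gi p.1 = gi p.1 * (gi p.1 * ∏ q ∈ V, qs q.1 p.1) := by rw [h3, mul_one]
        _ = (gi p.1 * gi p.1) * ∏ q ∈ V, qs q.1 p.1 := by ring
        _ = _ := by rw [this, one_mul]
    have e3 : ∏ p ∈ A, gi p.1 = (∏ p ∈ V, ∏ q ∈ A \ V, qs q.1 p.1) ^ 2 := by
      rw [← prod_sdiff hVA, prod_congr rfl e1, prod_congr rfl e2, prod_comm, sq]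
      congr 1
      refine prod_congr rfl fun p _ => prod_congr rfl fun q _ => ?_
      exact Pool.Agent.Y901.PP.Rec.t_REC p.1 q.1 p.2.1 p.2.2 q.2.1 q.2.2
    have e4 : (∏ p ∈ A, gi p.1 : ℤ) = -1 := by
      have h5 : ((∏ p ∈ A, gi p.1 : ℤ) : ℝ) = -1 := by
        rw [← hch]
        unfold ch
        push_cast
        rfl
      exact_mod_cast h5
    rw [e3] at e4
    have := sq_nonneg (∏ p ∈ V, ∏ q ∈ A \ V, qs q.1 p.1)
    omega

/-- **finitely many points** -/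
theorem finM {A : Finset Pr} (hX : XX gs (fun _ => (1 : ℝ)) A = 2) (hch : ch A = -1)
    {B : Finset Pr} (hBA : B ⊆ A) {c : G} (hc : c = PA A * PA B ^ 2 ∨ c = -(PA A * PA B ^ 2)) :
    {P : FractionRing G × FractionRing G |
      P.2 ^ 2 = P.1 ^ 3 - algebraMap G (FractionRing G) c * P.1}.Finite := by
  have h0 : PA A * PA B ^ 2 ≠ 0 := mul_ne_zero (Pool.Agent.Y547.PP.PA_ne A)
    (pow_ne_zero 2 (Pool.Agent.Y547.PP.PA_ne B))
  have hc0 : c ≠ 0 := by
    rcases hc with rfl | rfl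
    · exact h0
    · exact neg_ne_zero.mpr h0
  exact r2 c hc0 fun x y hx hxy => r1M A hX hch B hBA c hc x y hx hxy

end Pool.Agent.Helper26K9.MX
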